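import Pool.Agent.W978.QN.Stm

/-! Project QN (owner helper978), part CD: divisibility of the cross product. -/

set_option autoImplicit false

namespace Pool.Agent.W735.QN

open Pool.Agent.W978.QN

theorem key (m q q' : Fin 3 → ℤ) (g : ℤ) (hs : g ∣ ∑ j, m j * q j) (ht : g ∣ ∑ j, m j * q' j) :
    ∀ a b, g ∣ m a * cp q q' b - m b * cp q q' a := by
  obtain ⟨s, hs⟩ := hs
  obtain ⟨t, ht⟩ := ht
  rw [Fin.sum_univ_three] at hs ht
  have z0 : cp q q' 0 = q 1 * q' 2 - q 2 * q' 1 := rfl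
  have z1 : cp q q' 1 = q 2 * q' 0 - q 0 * q' 2 := rfl
  have z2 : cp q q' 2 = q 0 * q' 1 - q 1 * q' 0 := rfl
  have d01 : g ∣ m 0 * cp q q' 1 - m 1 * cp q q' 0 :=
    ⟨q 2 * t - q' 2 * s, by rw [z0, z1]; linear_combination q 2 * ht - q' 2 * hs⟩
  have d12 : g ∣ m 1 * cp q q' 2 - m 2 * cp q q' 1 :=
    ⟨q 0 * t - q' 0 * s, by rw [z1, z2]; linear_combination q 0 * ht - q' 0 * hs⟩
  have d20 : g ∣ m 2 * cp q q' 0 - m 0 * cp q q' 2 :=
    ⟨q 1 * t - q' 1 * s, by rw [z2, z0]; linear_combination q 1 * ht - q' 1 * hs⟩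
  have d : ∀ a, g ∣ m a * cp q q' a - m a * cp q q' a := fun a => by rw [sub_self]; exact dvd_zero g
  intro a b
  match a, b with
  | 0, 0 => exact d 0
  | 1, 1 => exact d 1
  | 2, 2 => exact d 2
  | 0, 1 => exact d01
  | 1, 2 => exact d12
  | 2, 0 => exact d20
  | 1, 0 => exact dvd_sub_comm.1 d01
  | 2, 1 => exact dvd_sub_comm.1 d12
  | 0, 2 => exact dvd_sub_comm.1 d20

/-- QN-CD: divisibility of the cross product. -/
theorem t_CD : S_CD := by
  intro M g q q' h h' k k' j j' c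
  have h1 := key (M k) q q' g (h k) (h' k)
  have h2 := key (M k') q q' g (h k') (h' k')
  obtain ⟨x, hx⟩ := h2 j' c
  obtain ⟨y, hy⟩ := h1 j j'
  obtain ⟨w, hw⟩ := h2 c j
  refine ⟨M k j * x + M k' c * y + M k j' * w, ?_⟩
  unfold mnr
  linear_combination M k j * hx + M k' c * hy + M k j' * hw

end Pool.Agent.W735.QN
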